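import Pool.Agent.Lib.MP_b735d7_co.Fin

/-!
The random graph order with edge probability `c / n`, `c > 1`, has dimension at least four,
almost surely.
-/

namespace Pool.Agent.Results.MP_b735d7_co.AtLeastFour

open Pool.Agent.Lib.MP_b735d7_co

theorem result : ∀ c : ℝ, 1 < c →
    Filter.Tendsto (fun n : ℕ => prob n c {G | 4 ≤ orderDim G}) Filter.atTop (nhds 1) :=
  fun _ hc => atLeastFour hc

end Pool.Agent.Results.MP_b735d7_co.AtLeastFour
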