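import Pool.Agent.Lib.MP_b735d7_co.Fin

/-!
The random graph order with edge probability `c / n` has dimension exactly four, almost surely,
for every `c` in an interval just above one.
-/

namespace Pool.Agent.Results.MP_b735d7_co.DimFour

open Pool.Agent.Lib.MP_b735d7_co

theorem result : ∃ ε : ℝ, 0 < ε ∧ ∀ c : ℝ, 1 < c → c < 1 + ε →
    Filter.Tendsto (fun n : ℕ => prob n c {G | orderDim G = 4}) Filter.atTop (nhds 1) :=
  dimFour

end Pool.Agent.Results.MP_b735d7_co.DimFour
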