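import Pool.Agent.Lib.MP_b735d7_co.UFin

/-!
The dimension of the random graph order with edge probability `c n / n` lies almost surely between
`δ exp (c n) / (c n) ^ K` and `C (c n) ^ 2 exp (c n)`, whenever `1 ≤ c n ≤ log n - 4 log log n`
for all large `n`; constant sequences are included.
-/

namespace Pool.Agent.Results.MP_b735d7_co.ExpUniform

open Pool.Agent.Lib.MP_b735d7_co

theorem result : ∃ (K : ℕ) (δ C : ℝ), 0 < δ ∧ ∀ c : ℕ → ℝ,
    (∀ᶠ n : ℕ in Filter.atTop, 1 ≤ c n ∧ c n ≤ Real.log n - 4 * Real.log (Real.log n)) →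
    Filter.Tendsto (fun n : ℕ => prob n (c n)
      {G | δ * Real.exp (c n) / c n ^ K ≤ (orderDim G : ℝ) ∧
        (orderDim G : ℝ) ≤ C * c n ^ 2 * Real.exp (c n)}) Filter.atTop (nhds 1) :=
  expUnif

end Pool.Agent.Results.MP_b735d7_co.ExpUniform
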