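import Pool.Agent.FS.FivePoint.Main

/-!
The dimension of the random graph order with edge probability `c n / n` is almost surely one of
five consecutive integers `k n, ..., k n + 4`, whenever `0 ≤ c n ≤ log log n / 800` for all large
`n`; constant sequences are included.
-/

namespace Pool.Agent.Results.MP_b735d7_co.FivePoint

open Pool.Agent.Lib.MP_b735d7_co

theorem result : ∀ c : ℕ → ℝ,
    (∀ᶠ n : ℕ in Filter.atTop, 0 ≤ c n ∧ c n ≤ Real.log (Real.log n) / 800) →
    ∃ k : ℕ → ℕ, Filter.Tendsto (fun n : ℕ => prob n (c n)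
      {G | k n ≤ orderDim G ∧ orderDim G ≤ k n + 4}) Filter.atTop (nhds 1) :=
  fun _ hc => Pool.Agent.FS.FivePoint.fivePoint hc

end Pool.Agent.Results.MP_b735d7_co.FivePoint
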